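import Pool.Agent.H548R3.NoAP
import Pool.Agent.H548R3.PAP
import Pool.Agent.H548R3.PConstr
import Pool.Agent.H548R3.Snow

/-! A metric space all of whose points are isolated and whose completion contains a given Banach
space as a Lipschitz retract. -/

set_option autoImplicit false

open Set Filter Topology
open Pool.Agent.H548R3.PFree Pool.Agent.H548R3.NoAP
open Pool.Agent.Helper362.Hap

namespace Pool.Agent.H46FD

/-- points `(x, n)`: the point `x` at height `2 ^ (-n)` -/
structure DM (E : Type) where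
  /-- the position -/
  pos : E
  /-- the level -/
  lev : ℕ

variable (E : Type) [NormedAddCommGroup E]

open scoped Classical in
/-- the distance -/
noncomputable def ddist (a b : DM E) : ℝ :=
  if a = b then 0 else ‖a.pos - b.pos‖ + (1 / 2) ^ a.lev + (1 / 2) ^ b.lev

variable {E}

theorem ddist_ne {a b : DM E} (h : a ≠ b) :
    ddist E a b = ‖a.pos - b.pos‖ + (1 / 2) ^ a.lev + (1 / 2) ^ b.lev := by
  rw [ddist, if_neg h]

theorem ddist_self (a : DM E) : ddist E a a = 0 := by rw [ddist, if_pos rfl]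

noncomputable instance : MetricSpace (DM E) where
  dist := ddist E
  dist_self := ddist_self
  dist_comm a b := by
    by_cases h : a = b
    · rw [h]
    · rw [ddist_ne h, ddist_ne (Ne.symm h), norm_sub_rev]
      ring
  dist_triangle a b c := by
    have hp : ∀ n : ℕ, (0 : ℝ) < (1 / 2) ^ n := fun n => by positivity
    by_cases h1 : a = b
    · rw [h1, ddist_self, zero_add]
    by_cases h2 : b = c
    · rw [h2, ddist_self, add_zero]
    have h3 : ‖a.pos - c.pos‖ ≤ ‖a.pos - b.pos‖ + ‖b.pos - c.pos‖ := norm_sub_le_norm_sub_add_norm_sub _ _ _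
    have ha := hp a.lev
    have hb := hp b.lev
    have hc := hp c.lev
    by_cases h : a = c
    · rw [h, ddist_self, ddist_ne h2]
      rw [ddist_ne (by rw [← h]; exact h1)]
      positivity
    rw [ddist_ne h1, ddist_ne h2, ddist_ne h]
    linarith
  eq_of_dist_eq_zero := by
    intro a b h
    by_contra hne
    have h' : ddist E a b = 0 := h
    rw [ddist_ne hne] at h'
    have ha : (0 : ℝ) < (1 / 2) ^ a.lev := by positivity
    have hb : (0 : ℝ) < (1 / 2) ^ b.lev := by positivity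
    have := norm_nonneg (a.pos - b.pos)
    linarith

theorem dist_ne {a b : DM E} (h : a ≠ b) :
    dist a b = ‖a.pos - b.pos‖ + (1 / 2) ^ a.lev + (1 / 2) ^ b.lev := ddist_ne h

theorem isolated (a : DM E) : ∃ r : ℝ, 0 < r ∧ ∀ b : DM E, dist a b < r → b = a := by
  refine ⟨(1 / 2) ^ a.lev, by positivity, fun b hb => ?_⟩
  by_contra hne
  rw [dist_ne (Ne.symm hne)] at hb
  have hb' : (0 : ℝ) < (1 / 2) ^ b.lev := by positivity
  have := norm_nonneg (a.pos - b.pos)
  linarith

theorem pos_le (a b : DM E) : ‖a.pos - b.pos‖ ≤ dist a b := by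
  by_cases h : a = b
  · rw [h, sub_self, norm_zero, dist_self]
  · rw [dist_ne h]
    have ha : (0 : ℝ) < (1 / 2) ^ a.lev := by positivity
    have hb : (0 : ℝ) < (1 / 2) ^ b.lev := by positivity
    linarith

theorem dist_le (a b : DM E) :
    dist a b ≤ ‖a.pos - b.pos‖ + (1 / 2) ^ a.lev + (1 / 2) ^ b.lev := by
  by_cases h : a = b
  · rw [h, dist_self]
    positivity
  · exact (dist_ne h).le

theorem not_hasAP_disc {p : ℝ} (h0 : 0 < p) (h1 : p ≤ 1) (Z : Type) [NormedAddCommGroup Z]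
    [Module ℝ Z] (δ : DM Pool.Agent.H548R3.NoAP.E → Z)
    (h : IsLipschitzFree p (DM Pool.Agent.H548R3.NoAP.E) ⟨0, 0⟩ Z δ) : ¬ HasAP p Z := by
  have hp : Fact (0 < p ∧ p ≤ 1) := ⟨h0, h1⟩
  have hcomplete : CompleteSpace Z := h.banach.2
  obtain ⟨β, hβ, -⟩ := h.lift (Snow p Pool.Agent.H548R3.NoAP.E)
    (isPBanach_snow p Pool.Agent.H548R3.NoAP.E)
    (fun a => (toSnow a.pos : Snow p Pool.Agent.H548R3.NoAP.E)) rfl
    ⟨1, fun x y => by
      have e : (toSnow x.pos - toSnow y.pos : Snow p Pool.Agent.H548R3.NoAP.E) =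
        toSnow (x.pos - y.pos) := rfl
      rw [e, pnorm_snow, one_mul]
      exact pos_le x y⟩
  -- the norms of differences
  have hnorm : ∀ a b, ‖δ a - δ b‖ = dist a b ^ p := by
    intro a b
    rw [← h.isometric a b, pnorm_rpow]
  have hhalf : Tendsto (fun n : ℕ => ((1 : ℝ) / 2) ^ n) atTop (𝓝 0) :=
    tendsto_pow_atTop_nhds_zero_of_lt_one (by norm_num) (by norm_num)
  -- the extension to the Banach space
  have hcau : ∀ x : Pool.Agent.H548R3.NoAP.E, ∃ z, Tendsto (fun n : ℕ => δ ⟨x, n⟩) atTop (𝓝 z) := by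
    intro x
    apply cauchySeq_tendsto_of_complete
    rw [Metric.cauchySeq_iff]
    intro ε hε
    have hε' : 0 < ε ^ (1 / p) := Real.rpow_pos_of_pos hε _
    have h2 := (Metric.tendsto_nhds.mp hhalf) (ε ^ (1 / p) / 2) (by positivity)
    obtain ⟨N, hN⟩ := eventually_atTop.mp h2
    refine ⟨N, fun m hm n hn => ?_⟩
    rw [dist_eq_norm, hnorm]
    have h3 := hN m hm
    have h4 := hN n hn
    rw [dist_zero_right, Real.norm_of_nonneg (by positivity)] at h3 h4
    have h5 : dist (⟨x, m⟩ : DM Pool.Agent.H548R3.NoAP.E) ⟨x, n⟩ < ε ^ (1 / p) := by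
      refine lt_of_le_of_lt (dist_le _ _) ?_
      simp only [sub_self, norm_zero]
      linarith
    calc dist (⟨x, m⟩ : DM Pool.Agent.H548R3.NoAP.E) ⟨x, n⟩ ^ p < (ε ^ (1 / p)) ^ p :=
          Real.rpow_lt_rpow dist_nonneg h5 h0
      _ = ε := by rw [← Real.rpow_mul hε.le, one_div_mul_cancel h0.ne', Real.rpow_one]
  choose δ' hδ' using hcau
  refine not_hasAP_of_section (X := Pool.Agent.H548R3.NoAP.E) h0 h.banach.1 δ' zero_le_one
    (fun x y => ?_) ((snowCLM p Pool.Agent.H548R3.NoAP.E).comp β) (fun x => ?_) (exists_data dat)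
  · have h2 : Tendsto (fun n : ℕ => ‖δ ⟨x, n⟩ - δ ⟨y, n⟩‖) atTop (𝓝 ‖δ' x - δ' y‖) :=
      ((hδ' x).sub (hδ' y)).norm
    have h3 : Tendsto (fun n : ℕ => (‖x - y‖ + (1 / 2) ^ n + (1 / 2) ^ n) ^ p) atTop
        (𝓝 ((‖x - y‖ + 0 + 0) ^ p)) :=
      ((tendsto_const_nhds.add hhalf).add hhalf).rpow_const (Or.inr h0.le)
    rw [add_zero, add_zero] at h3
    rw [one_mul]
    refine le_of_tendsto_of_tendsto h2 h3 (Eventually.of_forall fun n => ?_)
    change ‖δ ⟨x, n⟩ - δ ⟨y, n⟩‖ ≤ (‖x - y‖ + (1 / 2) ^ n + (1 / 2) ^ n) ^ p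
    rw [hnorm]
    exact Real.rpow_le_rpow dist_nonneg (dist_le _ _) h0.le
  · have h2 : Tendsto (fun n : ℕ => ((snowCLM p Pool.Agent.H548R3.NoAP.E).comp β) (δ ⟨x, n⟩)) atTop
        (𝓝 (((snowCLM p Pool.Agent.H548R3.NoAP.E).comp β) (δ' x))) :=
      (((snowCLM p Pool.Agent.H548R3.NoAP.E).comp β).continuous.tendsto _).comp (hδ' x)
    have h3 : ∀ n : ℕ, ((snowCLM p Pool.Agent.H548R3.NoAP.E).comp β) (δ ⟨x, n⟩) = x := by
      intro n
      show ofSnow (β (δ ⟨x, n⟩)) = x
      rw [hβ]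
      rfl
    simp only [h3] at h2
    exact tendsto_nhds_unique h2 tendsto_const_nhds

end Pool.Agent.H46FD
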